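import Mathlib
import Pool.Agent.Q76.HM.Stm

/-!
Project HM: horospherical integrals (HOR, HRB).
-/

set_option autoImplicit false

namespace Pool.Agent.Q277.HM

open MeasureTheory Set
open scoped ENNReal
open Pool.Agent.Q76.HM

lemma radial (H : ℝ → ℝ≥0∞) (hH : Measurable H) :
    ∫⁻ z : ℂ, H (‖z‖ ^ 2) = ENNReal.ofReal Real.pi * ∫⁻ v in Ioi (0 : ℝ), H v := by
  have h1 : ∫⁻ v in Ioi (0 : ℝ), H v =
      ∫⁻ r in Ioi (0 : ℝ), ENNReal.ofReal (|2 * r|) * H (r ^ 2) := by
    have h2 : (fun r : ℝ => r ^ 2) '' Ioi (0 : ℝ) = Ioi 0 := by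
      ext v
      rw [mem_image]
      constructor
      · rintro ⟨r, hr, rfl⟩
        exact pow_pos (mem_Ioi.1 hr) 2
      · intro hv
        exact ⟨Real.sqrt v, Real.sqrt_pos.2 hv, Real.sq_sqrt (mem_Ioi.1 hv).le⟩
    have h3 := lintegral_image_eq_lintegral_abs_deriv_mul (s := Ioi (0 : ℝ))
      (f := fun r : ℝ => r ^ 2) (f' := fun r => 2 * r) measurableSet_Ioi
      (fun x _ => by
        have := (hasDerivAt_pow 2 x).hasDerivWithinAt (s := Ioi (0 : ℝ))
        simpa using this)
      (fun a ha b hb hab => by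
        have ha' : 0 ≤ a := (mem_Ioi.1 ha).le
        have hb' : 0 ≤ b := (mem_Ioi.1 hb).le
        exact (pow_left_inj₀ ha' hb' two_ne_zero).1 hab) H
    rw [h2] at h3
    exact h3
  rw [h1, ← Complex.lintegral_comp_polarCoord_symm, polarCoord_target]
  have h4 : ∫⁻ p in Ioi (0 : ℝ) ×ˢ Ioo (-Real.pi) Real.pi,
      ENNReal.ofReal p.1 • H (‖Complex.polarCoord.symm p‖ ^ 2) =
      ∫⁻ p in Ioi (0 : ℝ) ×ˢ Ioo (-Real.pi) Real.pi, ENNReal.ofReal p.1 * H (p.1 ^ 2) := by
    refine lintegral_congr fun p => ?_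
    rw [Complex.norm_polarCoord_symm, sq_abs, smul_eq_mul]
  rw [h4, Measure.volume_eq_prod, ← Measure.prod_restrict, lintegral_prod]
  · simp only
    have h5 : ∀ r : ℝ, ∫⁻ _θ in Ioo (-Real.pi) Real.pi, ENNReal.ofReal r * H (r ^ 2) =
        ENNReal.ofReal r * H (r ^ 2) * ENNReal.ofReal (2 * Real.pi) := by
      intro r
      rw [lintegral_const, Measure.restrict_apply_univ, Real.volume_Ioo]
      congr 2
      ring
    simp only [h5]
    rw [← lintegral_const_mul' _ _ ENNReal.ofReal_ne_top]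
    refine setLIntegral_congr_fun measurableSet_Ioi fun r hr => ?_
    have hr0 : 0 < r := hr
    rw [abs_of_pos (by linarith), ENNReal.ofReal_mul (by norm_num : (0 : ℝ) ≤ 2),
      ENNReal.ofReal_mul (by norm_num : (0 : ℝ) ≤ 2)]
    ring
  · apply Measurable.aemeasurable
    apply Measurable.mul
    · exact ENNReal.measurable_ofReal.comp measurable_fst
    · exact hH.comp (measurable_fst.pow_const 2)

lemma scal (K : ℂ → ℝ≥0∞) (hK : Measurable K) (r : ℝ) (hr : 0 < r) :
    ∫⁻ z : ℂ, K ((r : ℂ) * z) = ENNReal.ofReal ((r ^ 2)⁻¹) * ∫⁻ z : ℂ, K z := by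
  have h := Measure.map_addHaar_smul (volume : Measure ℂ) hr.ne'
  rw [Complex.finrank_real_complex, abs_of_pos (by positivity)] at h
  have h2 : ∫⁻ z : ℂ, K z ∂(Measure.map (fun z : ℂ => r • z) volume) =
      ∫⁻ z : ℂ, K (r • z) := lintegral_map hK (measurable_const_smul r)
  have h3 : ∀ z : ℂ, (r : ℂ) * z = r • z := fun z => by rw [Complex.real_smul]
  simp only [h3]
  rw [← h2, h, lintegral_smul_measure, smul_eq_mul]

lemma inner (H : ℝ → ℝ≥0∞) (hH : Measurable H) (w : ℂ) (r : ℝ) (hr : 0 < r) :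
    ∫⁻ z : ℂ, H (‖w - (r : ℂ) * z‖ ^ 2) =
      ENNReal.ofReal ((r ^ 2)⁻¹) * (ENNReal.ofReal Real.pi * ∫⁻ v in Ioi (0 : ℝ), H v) := by
  have hm : Measurable fun u : ℂ => H (‖w - u‖ ^ 2) :=
    hH.comp (((measurable_const.sub measurable_id).norm).pow_const 2)
  rw [scal (fun u => H (‖w - u‖ ^ 2)) hm r hr, ← radial H hH]
  congr 1
  exact lintegral_sub_left_eq_self (fun u : ℂ => H (‖u‖ ^ 2)) w

lemma affine (Q : ℝ → ℝ≥0∞) (a b : ℝ) (hb : 0 < b) :
    ∫⁻ v in Ioi (0 : ℝ), Q ((v + a) / b) = ENNReal.ofReal b * ∫⁻ c in Ioi (a / b), Q c := by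
  have h2 : (fun v : ℝ => (v + a) / b) '' Ioi (0 : ℝ) = Ioi (a / b) := by
    ext c
    rw [mem_image]
    constructor
    · rintro ⟨v, hv, rfl⟩
      have hv' : 0 < v := hv
      exact div_lt_div_of_pos_right (by linarith) hb
    · intro hc
      have hc' : a / b < c := hc
      refine ⟨c * b - a, ?_, ?_⟩
      · rw [div_lt_iff₀ hb] at hc'
        exact sub_pos.2 hc'
      · field_simp
        ring
  have h3 := lintegral_image_eq_lintegral_abs_deriv_mul (s := Ioi (0 : ℝ))
    (f := fun v : ℝ => (v + a) / b) (f' := fun _ => 1 / b) measurableSet_Ioi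
    (fun x _ => by
      have := (((hasDerivAt_id x).add_const a).div_const b).hasDerivWithinAt (s := Ioi (0 : ℝ))
      simpa using this)
    (fun u _ v _ huv => by
      have h : (u + a) / b = (v + a) / b := huv
      rw [div_left_inj' hb.ne'] at h
      linarith) Q
  rw [h2] at h3
  rw [h3, ← lintegral_const_mul' _ _ ENNReal.ofReal_ne_top]
  refine lintegral_congr fun v => ?_
  rw [← mul_assoc, ← ENNReal.ofReal_mul hb.le, abs_of_pos (by positivity),
    mul_one_div_cancel hb.ne', ENNReal.ofReal_one, one_mul]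

lemma meas_ch (x : ℂ × ℝ) : Measurable fun y : ℂ × ℝ => ch x y := by
  unfold ch
  have h1 : Measurable fun y : ℂ × ℝ => (Real.exp y.2 : ℂ) :=
    Complex.measurable_ofReal.comp (Real.measurable_exp.comp measurable_snd)
  have h2 : Measurable fun y : ℂ × ℝ => Real.exp y.2 := Real.measurable_exp.comp measurable_snd
  apply Measurable.div
  · apply Measurable.add
    · apply Measurable.add
      · exact ((measurable_const.sub (h1.mul measurable_fst)).norm).pow_const 2
      · exact measurable_const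
    · exact h2.pow_const 2
  · exact measurable_const.mul h2

lemma meas_Kc (γ : ℝ) : Measurable (Kc γ) := by
  unfold Kc
  apply Measurable.ite measurableSet_Ioi
  · exact (measurable_deriv _).neg.div_const _
  · exact measurable_const

theorem hor (h : S_KAP) : S_HOR := by
  intro γ hγ x g hg
  obtain ⟨-, hpos, heven, -, hmeas, -, hint⟩ := h γ hγ
  have hQ : Measurable fun c => ENNReal.ofReal (Kc γ c) := ENNReal.measurable_ofReal.comp hmeas
  have hF : Measurable fun y : ℂ × ℝ => ENNReal.ofReal (Kc γ (ch x y)) * g y.2 :=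
    (hQ.comp (meas_ch x)).mul (hg.comp measurable_snd)
  rw [Measure.volume_eq_prod, lintegral_prod_symm _ hF.aemeasurable]
  have key : ∀ s : ℝ, ∫⁻ z : ℂ, ENNReal.ofReal (Kc γ (ch x (z, s))) * g s =
      ENNReal.ofReal (Real.exp (-(s - x.2)) * kap γ (s - x.2)) * g s := by
    intro s
    have hmz : Measurable fun z : ℂ => ENNReal.ofReal (Kc γ (ch x (z, s))) :=
      hQ.comp ((meas_ch x).comp (measurable_id.prodMk measurable_const))
    rw [lintegral_mul_const _ hmz]
    congr 1
    have hE := Real.exp_pos x.2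
    have hR := Real.exp_pos s
    set E : ℝ := Real.exp x.2 with hEd
    set R : ℝ := Real.exp s with hRd
    have e1 : ∀ z : ℂ, ch x (z, s) =
        (‖(E : ℂ) * x.1 - (R : ℂ) * z‖ ^ 2 + (E ^ 2 + R ^ 2)) / (2 * E * R) := by
      intro z
      unfold ch
      simp only [← hEd, ← hRd]
      ring
    simp only [e1]
    rw [inner (fun v => ENNReal.ofReal (Kc γ ((v + (E ^ 2 + R ^ 2)) / (2 * E * R))))
      (hQ.comp ((measurable_id.add_const _).div_const _)) _ R hR,
      affine (fun c => ENNReal.ofReal (Kc γ c)) (E ^ 2 + R ^ 2) (2 * E * R) (by positivity)]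
    have e2 : (E ^ 2 + R ^ 2) / (2 * E * R) = Real.cosh |s - x.2| := by
      rw [Real.cosh_abs, Real.cosh_eq, neg_sub, Real.exp_sub, Real.exp_sub, ← hEd, ← hRd]
      field_simp
      ring
    rw [e2, hint _ (Real.one_le_cosh _), Real.arcosh_cosh (abs_nonneg _)]
    have e3 : kap γ |s - x.2| = kap γ (s - x.2) := by
      rcases abs_choice (s - x.2) with h | h
      · rw [h]
      · rw [h, heven]
    rw [e3, ← ENNReal.ofReal_mul (by positivity), ← ENNReal.ofReal_mul (by positivity),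
      ← ENNReal.ofReal_mul (by positivity)]
    congr 1
    rw [neg_sub, Real.exp_sub, ← hEd, ← hRd]
    have hpi := Real.pi_pos
    field_simp
  simp only [key]
  have h2 := lintegral_add_left_eq_self (μ := (volume : Measure ℝ))
    (fun s : ℝ => ENNReal.ofReal (Real.exp (-(s - x.2)) * kap γ (s - x.2)) * g s) x.2
  rw [← h2]
  refine lintegral_congr fun τ => ?_
  rw [add_sub_cancel_left]

theorem hrb (h1 : S_HOR) (h2 : S_ISO) : S_HRB := by
  intro γ hγ b x g hg
  obtain ⟨i1, i2, i3, i4, -, -, i7, -⟩ := h2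
  have hQ : Measurable fun c => ENNReal.ofReal (Kc γ c) :=
    ENNReal.measurable_ofReal.comp (meas_Kc γ)
  have e1 : ∀ y, (jf (trf b y)).2 = Real.log (Pk b y) := by
    intro y
    rw [← i7 b y, Real.log_exp]
  have e2 : ∀ y, ENNReal.ofReal (Kc γ (ch x y)) * g (Real.log (Pk b y)) =
      (fun y' : ℂ × ℝ => ENNReal.ofReal (Kc γ (ch (jf (trf b x)) y')) * g y'.2)
        ((jf ∘ trf b) y) := by
    intro y
    simp only [Function.comp]
    rw [i4, i3, e1]
  simp only [e2]
  have hF : Measurable fun y' : ℂ × ℝ =>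
      ENNReal.ofReal (Kc γ (ch (jf (trf b x)) y')) * g y'.2 :=
    (hQ.comp (meas_ch _)).mul (hg.comp measurable_snd)
  rw [(i2.comp (i1 b)).lintegral_comp hF, h1 γ hγ (jf (trf b x)) g hg, e1]

end Pool.Agent.Q277.HM
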