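import Mathlib
import Pool.Agent.Q76.HM.Stm

/-!
Project HM: the isometries (ISO).
-/

set_option autoImplicit false

namespace Pool.Agent.Q277.HM

open MeasureTheory
open Pool.Agent.Q76.HM

lemma mp_trf (b : ℂ) : MeasurePreserving (trf b) volume volume := by
  have h1 : MeasurePreserving (fun p : ℝ × ℂ => (p.1, p.2 - b * (Real.exp (-p.1) : ℂ)))
      ((volume : Measure ℝ).prod (volume : Measure ℂ))
      ((volume : Measure ℝ).prod (volume : Measure ℂ)) := by
    refine MeasurePreserving.skew_product (f := fun s : ℝ => s)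
      (g := fun (s : ℝ) (z : ℂ) => z - b * (Real.exp (-s) : ℂ)) (MeasurePreserving.id _) ?_ ?_
    · apply Measurable.sub
      · exact measurable_snd
      · apply Measurable.mul measurable_const
        apply Complex.measurable_ofReal.comp
        exact Real.measurable_exp.comp (measurable_fst.neg)
    · exact Filter.Eventually.of_forall fun s =>
        (measurePreserving_sub_right (volume : Measure ℂ) (b * (Real.exp (-s) : ℂ))).map_eq
  have h2 : MeasurePreserving (Prod.swap : ℂ × ℝ → ℝ × ℂ)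
      ((volume : Measure ℂ).prod (volume : Measure ℝ))
      ((volume : Measure ℝ).prod (volume : Measure ℂ)) := Measure.measurePreserving_swap
  have h3 : MeasurePreserving (Prod.swap : ℝ × ℂ → ℂ × ℝ)
      ((volume : Measure ℝ).prod (volume : Measure ℂ))
      ((volume : Measure ℂ).prod (volume : Measure ℝ)) := Measure.measurePreserving_swap
  exact h3.comp (h1.comp h2)

lemma mp_jf : MeasurePreserving jf volume volume := by
  refine MeasurePreserving.skew_product (f := fun z : ℂ => z)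
    (g := fun (z : ℂ) (s : ℝ) => -s - Real.log (1 + ‖z‖ ^ 2)) (MeasurePreserving.id _) ?_ ?_
  · apply Measurable.sub
    · exact measurable_snd.neg
    · apply Real.measurable_log.comp
      exact measurable_const.add ((measurable_norm.comp measurable_fst).pow_const 2)
  · refine Filter.Eventually.of_forall fun z => ?_
    have h := (Measure.measurePreserving_sub_left (volume : Measure ℝ) (-Real.log (1 + ‖z‖ ^ 2))).map_eq
    have e : (fun s : ℝ => -s - Real.log (1 + ‖z‖ ^ 2)) =
        fun s => -Real.log (1 + ‖z‖ ^ 2) - s := by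
      funext s
      ring
    rw [e]
    exact h

lemma exp_cancel (s : ℝ) : (Real.exp s : ℂ) * (Real.exp (-s) : ℂ) = 1 := by
  rw [← Complex.ofReal_mul, ← Real.exp_add, add_neg_cancel, Real.exp_zero, Complex.ofReal_one]

lemma shift_eq (b : ℂ) (x : ℂ × ℝ) :
    (Real.exp x.2 : ℂ) * (x.1 - b * (Real.exp (-x.2) : ℂ)) = (Real.exp x.2 : ℂ) * x.1 - b := by
  linear_combination (-b) * exp_cancel x.2

lemma ch_formula (x y : ℂ × ℝ) : ch x y = (Real.exp (x.2 - y.2) * (1 + ‖x.1‖ ^ 2) +
    Real.exp (y.2 - x.2) * (1 + ‖y.1‖ ^ 2)) / 2 - (x.1 * (starRingEnd ℂ) y.1).re := by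
  unfold ch
  rw [Real.exp_sub, Real.exp_sub]
  have h1 := Real.exp_pos x.2
  have h2 := Real.exp_pos y.2
  set E : ℝ := Real.exp x.2
  set F : ℝ := Real.exp y.2
  rw [Complex.sq_norm, Complex.sq_norm, Complex.sq_norm, Complex.normSq_apply,
    Complex.normSq_apply, Complex.normSq_apply]
  simp only [Complex.sub_re, Complex.sub_im, Complex.mul_re, Complex.mul_im, Complex.ofReal_re,
    Complex.ofReal_im, Complex.conj_re, Complex.conj_im]
  field_simp
  ring

lemma ch_trf (b : ℂ) (x y : ℂ × ℝ) : ch (trf b x) (trf b y) = ch x y := by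
  unfold ch trf
  simp only
  rw [shift_eq, shift_eq]
  have e : (Real.exp x.2 : ℂ) * x.1 - b - ((Real.exp y.2 : ℂ) * y.1 - b) =
      (Real.exp x.2 : ℂ) * x.1 - (Real.exp y.2 : ℂ) * y.1 := by ring
  rw [e]

lemma ch_jf (x y : ℂ × ℝ) : ch (jf x) (jf y) = ch x y := by
  rw [ch_formula, ch_formula]
  unfold jf
  simp only
  have ha : 0 < 1 + ‖x.1‖ ^ 2 := by positivity
  have hb : 0 < 1 + ‖y.1‖ ^ 2 := by positivity
  have e1 : Real.exp (-x.2 - Real.log (1 + ‖x.1‖ ^ 2) - (-y.2 - Real.log (1 + ‖y.1‖ ^ 2))) =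
      Real.exp (y.2 - x.2) * (1 + ‖y.1‖ ^ 2) / (1 + ‖x.1‖ ^ 2) := by
    rw [show -x.2 - Real.log (1 + ‖x.1‖ ^ 2) - (-y.2 - Real.log (1 + ‖y.1‖ ^ 2)) =
      (y.2 - x.2) + Real.log (1 + ‖y.1‖ ^ 2) - Real.log (1 + ‖x.1‖ ^ 2) by ring,
      Real.exp_sub, Real.exp_add, Real.exp_log ha, Real.exp_log hb]
  have e2 : Real.exp (-y.2 - Real.log (1 + ‖y.1‖ ^ 2) - (-x.2 - Real.log (1 + ‖x.1‖ ^ 2))) =
      Real.exp (x.2 - y.2) * (1 + ‖x.1‖ ^ 2) / (1 + ‖y.1‖ ^ 2) := by
    rw [show -y.2 - Real.log (1 + ‖y.1‖ ^ 2) - (-x.2 - Real.log (1 + ‖x.1‖ ^ 2)) =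
      (x.2 - y.2) + Real.log (1 + ‖x.1‖ ^ 2) - Real.log (1 + ‖y.1‖ ^ 2) by ring,
      Real.exp_sub, Real.exp_add, Real.exp_log ha, Real.exp_log hb]
  rw [e1, e2]
  field_simp
  ring

lemma pk_pos (b : ℂ) (x : ℂ × ℝ) : 0 < Pk b x := by
  unfold Pk
  positivity

lemma exp_jf (b : ℂ) (x : ℂ × ℝ) : Real.exp (jf (trf b x)).2 = Pk b x := by
  unfold jf trf Pk
  simp only
  rw [← shift_eq b x, norm_mul, Complex.norm_real, Real.norm_of_nonneg (Real.exp_pos _).le]
  have ha : 0 < 1 + ‖x.1 - b * (Real.exp (-x.2) : ℂ)‖ ^ 2 := by positivity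
  rw [Real.exp_sub, Real.exp_log ha, Real.exp_neg]
  have h1 := Real.exp_pos x.2
  field_simp
  ring

lemma one_le_ch (x y : ℂ × ℝ) : 1 ≤ ch x y := by
  unfold ch
  have h1 := Real.exp_pos x.2
  have h2 := Real.exp_pos y.2
  rw [le_div_iff₀ (by positivity)]
  nlinarith [sq_nonneg (Real.exp x.2 - Real.exp y.2),
    sq_nonneg (‖(Real.exp x.2 : ℂ) * x.1 - (Real.exp y.2 : ℂ) * y.1‖)]

lemma ch_comm (x y : ℂ × ℝ) : ch x y = ch y x := by
  unfold ch
  rw [norm_sub_rev]
  ring

lemma eq_of_ch (x y : ℂ × ℝ) (h : ch x y = 1) : x = y := by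
  unfold ch at h
  have h1 := Real.exp_pos x.2
  have h2 := Real.exp_pos y.2
  rw [div_eq_iff (by positivity)] at h
  have h3 : ‖(Real.exp x.2 : ℂ) * x.1 - (Real.exp y.2 : ℂ) * y.1‖ ^ 2 +
      (Real.exp x.2 - Real.exp y.2) ^ 2 = 0 := by linear_combination h
  have h4 : (Real.exp x.2 - Real.exp y.2) ^ 2 = 0 := by
    nlinarith [sq_nonneg (‖(Real.exp x.2 : ℂ) * x.1 - (Real.exp y.2 : ℂ) * y.1‖),
      sq_nonneg (Real.exp x.2 - Real.exp y.2)]
  have h5 : ‖(Real.exp x.2 : ℂ) * x.1 - (Real.exp y.2 : ℂ) * y.1‖ ^ 2 = 0 := by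
    rw [h4, add_zero] at h3
    exact h3
  have h6 : Real.exp x.2 = Real.exp y.2 := sub_eq_zero.1 (pow_eq_zero_iff (two_ne_zero) |>.1 h4)
  have h7 : x.2 = y.2 := Real.exp_injective h6
  have h8 : (Real.exp x.2 : ℂ) * x.1 - (Real.exp y.2 : ℂ) * y.1 = 0 :=
    norm_eq_zero.1 (pow_eq_zero_iff (two_ne_zero) |>.1 h5)
  rw [← h7, ← mul_sub] at h8
  have h9 : x.1 = y.1 := by
    rcases mul_eq_zero.1 h8 with h | h
    · exfalso
      have : (Real.exp x.2 : ℂ) ≠ 0 := by exact_mod_cast h1.ne'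
      exact this h
    · exact sub_eq_zero.1 h
  exact Prod.ext h9 h7

lemma cont_exp {α : Type} [TopologicalSpace α] (f : α → ℝ) (hf : Continuous f) :
    Continuous fun a => (Real.exp (f a) : ℂ) :=
  Complex.continuous_ofReal.comp (Real.continuous_exp.comp hf)

theorem iso : S_ISO := by
  refine ⟨mp_trf, mp_jf, ch_trf, ch_jf, ?_, ?_, exp_jf, ch_formula, one_le_ch, ch_comm,
    eq_of_ch, ?_, ?_, pk_pos⟩
  · intro x
    unfold jf
    simp only
    apply Prod.ext
    · rfl
    · simp only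
      ring
  · intro b x
    unfold trf
    simp only
    apply Prod.ext
    · simp only
      ring
    · rfl
  · unfold ch
    apply Continuous.div
    · apply Continuous.add
      · apply Continuous.add
        · apply Continuous.pow
          apply Continuous.norm
          apply Continuous.sub
          · exact (cont_exp _ (by fun_prop)).mul (by fun_prop)
          · exact (cont_exp _ (by fun_prop)).mul (by fun_prop)
        · fun_prop
      · fun_prop
    · fun_prop
    · intro q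
      positivity
  · unfold Pk
    apply Continuous.div
    · fun_prop
    · apply Continuous.add
      · apply Continuous.pow
        apply Continuous.norm
        apply Continuous.sub
        · exact (cont_exp _ (by fun_prop)).mul (by fun_prop)
        · fun_prop
      · fun_prop
    · intro q
      positivity

end Pool.Agent.Q277.HM
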