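import Mathlib
import Pool.Agent.Q76.HM.Stm
import Pool.Agent.Q277.HM.ISO
import Pool.Agent.Q277.HM.HOR

/-!
Project HM: the operator acts on the superpositions as a convolution (ACT), and the superpositions
are radial (RAD).
-/

set_option autoImplicit false

namespace Pool.Agent.Q277.HM

open MeasureTheory Set
open scoped ENNReal
open Pool.Agent.Q76.HM

/-- transfer of lower integrals to Bochner integrals -/
lemma transfer {α β E : Type} [MeasurableSpace α] [MeasurableSpace β] [NormedAddCommGroup E]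
    [NormedSpace ℝ E] (μ : Measure α) (ν : Measure β) (k : α → ℝ) (hk : Measurable k)
    (hk0 : ∀ a, 0 ≤ k a) (φ : α → ℝ) (hφ : Measurable φ) (l : β → ℝ) (hl : Measurable l)
    (hl0 : ∀ a, 0 ≤ l a) (ψ : β → ℝ) (hψ : Measurable ψ)
    (h : ∀ g : ℝ → ℝ≥0∞, Measurable g → ∫⁻ a, ENNReal.ofReal (k a) * g (φ a) ∂μ =
      ∫⁻ b, ENNReal.ofReal (l b) * g (ψ b) ∂ν) (F : ℝ → E) (hF : StronglyMeasurable F) :
    (Integrable (fun a => k a • F (φ a)) μ ↔ Integrable (fun b => l b • F (ψ b)) ν) ∧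
      ∫ a, k a • F (φ a) ∂μ = ∫ b, l b • F (ψ b) ∂ν := by
  have hkm : Measurable fun a => ENNReal.ofReal (k a) := ENNReal.measurable_ofReal.comp hk
  have hlm : Measurable fun a => ENNReal.ofReal (l a) := ENNReal.measurable_ofReal.comp hl
  have hmeas : Measure.map φ (μ.withDensity fun a => ENNReal.ofReal (k a)) =
      Measure.map ψ (ν.withDensity fun a => ENNReal.ofReal (l a)) := by
    ext s hs
    rw [Measure.map_apply hφ hs, Measure.map_apply hψ hs, withDensity_apply _ (hφ hs),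
      withDensity_apply _ (hψ hs)]
    have h1 := h (s.indicator fun _ => 1) (measurable_const.indicator hs)
    have e1 : ∫⁻ a in φ ⁻¹' s, ENNReal.ofReal (k a) ∂μ =
        ∫⁻ a, ENNReal.ofReal (k a) * (s.indicator (fun _ => 1) (φ a)) ∂μ := by
      rw [← lintegral_indicator (hφ hs)]
      refine lintegral_congr fun a => ?_
      by_cases ha : φ a ∈ s
      · rw [indicator_of_mem (show a ∈ φ ⁻¹' s from ha), indicator_of_mem ha, mul_one]
      · rw [indicator_of_notMem (show a ∉ φ ⁻¹' s from ha), indicator_of_notMem ha, mul_zero]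
    have e2 : ∫⁻ a in ψ ⁻¹' s, ENNReal.ofReal (l a) ∂ν =
        ∫⁻ a, ENNReal.ofReal (l a) * (s.indicator (fun _ => 1) (ψ a)) ∂ν := by
      rw [← lintegral_indicator (hψ hs)]
      refine lintegral_congr fun a => ?_
      by_cases ha : ψ a ∈ s
      · rw [indicator_of_mem (show a ∈ ψ ⁻¹' s from ha), indicator_of_mem ha, mul_one]
      · rw [indicator_of_notMem (show a ∉ ψ ⁻¹' s from ha), indicator_of_notMem ha, mul_zero]
    rw [e1, e2, h1]
  have f1 : ∀ a, (ENNReal.ofReal (k a)).toReal = k a := fun a => ENNReal.toReal_ofReal (hk0 a)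
  have f2 : ∀ a, (ENNReal.ofReal (l a)).toReal = l a := fun a => ENNReal.toReal_ofReal (hl0 a)
  constructor
  · have i1 := integrable_withDensity_iff_integrable_smul' (μ := μ) hkm
      (Filter.Eventually.of_forall fun a => ENNReal.ofReal_lt_top) (g := fun a => F (φ a))
    have i2 := integrable_withDensity_iff_integrable_smul' (μ := ν) hlm
      (Filter.Eventually.of_forall fun a => ENNReal.ofReal_lt_top) (g := fun a => F (ψ a))
    simp only [f1] at i1
    simp only [f2] at i2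
    rw [← i1, ← i2]
    have j1 := integrable_map_measure (μ := μ.withDensity fun a => ENNReal.ofReal (k a))
      (g := F) hF.aestronglyMeasurable hφ.aemeasurable
    have j2 := integrable_map_measure (μ := ν.withDensity fun a => ENNReal.ofReal (l a))
      (g := F) hF.aestronglyMeasurable hψ.aemeasurable
    rw [hmeas] at j1
    exact j1.symm.trans j2
  · have i1 := integral_withDensity_eq_integral_toReal_smul (μ := μ) hkm
      (Filter.Eventually.of_forall fun a => ENNReal.ofReal_lt_top) (fun a => F (φ a))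
    have i2 := integral_withDensity_eq_integral_toReal_smul (μ := ν) hlm
      (Filter.Eventually.of_forall fun a => ENNReal.ofReal_lt_top) (fun a => F (ψ a))
    simp only [f1] at i1
    simp only [f2] at i2
    rw [← i1, ← i2, ← integral_map hφ.aemeasurable hF.aestronglyMeasurable,
      ← integral_map hψ.aemeasurable hF.aestronglyMeasurable, hmeas]

lemma pk_cont : Continuous fun q : ℂ × (ℂ × ℝ) => Pk q.1 q.2 := iso.2.2.2.2.2.2.2.2.2.2.2.2.1

lemma pk_cont1 (y : ℂ × ℝ) : Continuous fun b : ℂ => Pk b y :=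
  pk_cont.comp (continuous_id.prodMk continuous_const)

lemma pk_cont2 (b : ℂ) : Continuous fun y : ℂ × ℝ => Pk b y :=
  pk_cont.comp (continuous_const.prodMk continuous_id)

lemma pk_int (y : ℂ × ℝ) : Integrable fun b : ℂ => Pk b y ^ 2 := by
  set t : ℝ := Real.exp y.2 with ht
  have ht0 : 0 < t := Real.exp_pos _
  set w : ℂ := (t : ℂ) * y.1 with hw
  have h0 : Integrable fun u : ℂ => (1 + ‖u‖) ^ (-(4 : ℝ)) := by
    apply integrable_one_add_norm
    rw [Complex.finrank_real_complex]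
    norm_num
  have h1 : Integrable fun b : ℂ => (1 + ‖w - b‖) ^ (-(4 : ℝ)) := h0.comp_sub_left w
  set K : ℝ := 1 + 1 / t ^ 2 with hK
  have h2 := h1.const_mul ((2 * K * t) ^ 2)
  refine h2.mono' ((pk_cont1 y).pow 2).aestronglyMeasurable ?_
  refine Filter.Eventually.of_forall fun b => ?_
  rw [Real.norm_of_nonneg (by positivity)]
  have e1 : Pk b y = t / (‖w - b‖ ^ 2 + t ^ 2) := rfl
  rw [e1]
  set r : ℝ := ‖w - b‖ with hr
  have hr0 : 0 ≤ r := norm_nonneg _
  have h3 : (1 + r) ^ 2 ≤ 2 * K * (r ^ 2 + t ^ 2) := by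
    have e2 : K * (r ^ 2 + t ^ 2) = r ^ 2 + t ^ 2 + r ^ 2 / t ^ 2 + 1 := by
      rw [hK]
      field_simp
      ring
    have h4 : 0 ≤ r ^ 2 / t ^ 2 := by positivity
    nlinarith [sq_nonneg (1 - r), sq_nonneg t]
  have h5 : t / (r ^ 2 + t ^ 2) ≤ 2 * K * t / (1 + r) ^ 2 := by
    rw [div_le_div_iff₀ (by positivity) (by positivity)]
    nlinarith
  have h6 : (1 + r) ^ (-(4 : ℝ)) = 1 / ((1 + r) ^ 2) ^ 2 := by
    rw [Real.rpow_neg (by positivity), show (4 : ℝ) = ((4 : ℕ) : ℝ) by norm_num,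
      Real.rpow_natCast, one_div, ← pow_mul]
  rw [h6]
  calc (t / (r ^ 2 + t ^ 2)) ^ 2 ≤ (2 * K * t / (1 + r) ^ 2) ^ 2 := by gcongr
    _ = (2 * K * t) ^ 2 * (1 / ((1 + r) ^ 2) ^ 2) := by
        rw [div_pow]
        ring

lemma w_le (γ u v : ℝ) (h0 : 0 < γ) (h1 : γ < 1) (hu : 0 < u) (hv : 0 < v) :
    u ^ (1 - γ) * v ^ (1 + γ) ≤ u ^ 2 + v ^ 2 := by
  set m : ℝ := max u v with hm
  have hm0 : 0 < m := lt_max_of_lt_left hu
  have e1 : u ^ (1 - γ) ≤ m ^ (1 - γ) :=
    Real.rpow_le_rpow hu.le (le_max_left _ _) (by linarith)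
  have e2 : v ^ (1 + γ) ≤ m ^ (1 + γ) :=
    Real.rpow_le_rpow hv.le (le_max_right _ _) (by linarith)
  have e3 : m ^ (1 - γ) * m ^ (1 + γ) = m ^ 2 := by
    rw [← Real.rpow_add hm0, show 1 - γ + (1 + γ) = ((2 : ℕ) : ℝ) by norm_num,
      Real.rpow_natCast]
  calc u ^ (1 - γ) * v ^ (1 + γ) ≤ m ^ (1 - γ) * m ^ (1 + γ) :=
        mul_le_mul e1 e2 (by positivity) (by positivity)
    _ = m ^ 2 := e3
    _ ≤ u ^ 2 + v ^ 2 := by
        rcases max_choice u v with h | h
        · rw [hm, h]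
          nlinarith [sq_nonneg v]
        · rw [hm, h]
          nlinarith [sq_nonneg u]

lemma w_cont (γ : ℝ) (y₀ y : ℂ × ℝ) :
    Continuous fun b : ℂ => Pk b y₀ ^ (1 - γ) * Pk b y ^ (1 + γ) := by
  apply Continuous.mul
  · exact (pk_cont1 y₀).rpow_const fun b => Or.inl (pk_pos b y₀).ne'
  · exact (pk_cont1 y).rpow_const fun b => Or.inl (pk_pos b y).ne'

lemma w_pos (γ : ℝ) (y₀ y : ℂ × ℝ) (b : ℂ) : 0 < Pk b y₀ ^ (1 - γ) * Pk b y ^ (1 + γ) :=
  mul_pos (Real.rpow_pos_of_pos (pk_pos b y₀) _) (Real.rpow_pos_of_pos (pk_pos b y) _)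

lemma w_int (γ : ℝ) (h0 : 0 < γ) (h1 : γ < 1) (y₀ y : ℂ × ℝ) :
    Integrable fun b : ℂ => Pk b y₀ ^ (1 - γ) * Pk b y ^ (1 + γ) := by
  refine ((pk_int y₀).add (pk_int y)).mono' (w_cont γ y₀ y).aestronglyMeasurable ?_
  refine Filter.Eventually.of_forall fun b => ?_
  rw [Real.norm_of_nonneg (w_pos γ y₀ y b).le]
  exact w_le γ _ _ h0 h1 (pk_pos b y₀) (pk_pos b y)

lemma log_cont (y₀ y : ℂ × ℝ) : Continuous fun b : ℂ => Real.log (Pk b y) - Real.log (Pk b y₀) :=
  ((pk_cont1 y).log fun b => (pk_pos b y).ne').sub ((pk_cont1 y₀).log fun b => (pk_pos b y₀).ne')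

lemma fam_int (γ : ℝ) (h0 : 0 < γ) (h1 : γ < 1) (y₀ y : ℂ × ℝ) (G : ℝ → ℂ) (hG : Continuous G)
    (M : ℝ) (hM : ∀ σ, ‖G σ‖ ≤ M) :
    Integrable fun b : ℂ => ((Pk b y₀ ^ (1 - γ) * Pk b y ^ (1 + γ) : ℝ) : ℂ) *
      G (Real.log (Pk b y) - Real.log (Pk b y₀)) := by
  refine ((w_int γ h0 h1 y₀ y).const_mul M).mono' ?_ ?_
  · apply Continuous.aestronglyMeasurable
    exact (Complex.continuous_ofReal.comp (w_cont γ y₀ y)).mul (hG.comp (log_cont y₀ y))
  · refine Filter.Eventually.of_forall fun b => ?_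
    rw [norm_mul, Complex.norm_real, Real.norm_of_nonneg (w_pos γ y₀ y b).le, mul_comm]
    exact mul_le_mul_of_nonneg_right (hM _) (w_pos γ y₀ y b).le

theorem rad (h1 : S_POI) : S_RAD := by
  intro γ h0 hγ1 y₀ G hG hM y hy
  set ρ : ℝ := Real.arcosh (ch y₀ y) with hρ
  have hρ0 : 0 ≤ ρ := Real.arcosh_nonneg hy.le
  set c : ℝ := Real.pi / (2 * Real.sinh ρ) with hc
  have hc0 : 0 ≤ c := by
    rw [hc]
    have := Real.sinh_nonneg_iff.2 hρ0
    have := Real.pi_pos
    positivity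
  have ht := transfer (volume : Measure ℂ) ((volume : Measure ℝ).restrict (Icc (-ρ) ρ))
    (fun b => Pk b y₀ ^ 2) ((pk_cont1 y₀).pow 2).measurable (fun b => by positivity)
    (fun b => Real.log (Pk b y) - Real.log (Pk b y₀)) (log_cont y₀ y).measurable
    (fun τ => c * Real.exp (-τ)) (by fun_prop) (fun τ => by positivity) (fun τ => τ) measurable_id
    (by
      intro g hg
      have h2 := h1 y₀ y hy g hg
      rw [h2, ← lintegral_const_mul' _ _ ENNReal.ofReal_ne_top]
      refine lintegral_congr fun τ => ?_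
      rw [← mul_assoc, ← ENNReal.ofReal_mul hc0])
    (fun d => (Real.exp ((1 + γ) * d) : ℂ) * G d) (by
      apply Continuous.stronglyMeasurable
      exact (Complex.continuous_ofReal.comp (by fun_prop)).mul hG)
  have e1 := ht.2
  unfold fam
  have e2 : (fun b : ℂ => ((Pk b y₀ ^ (1 - γ) * Pk b y ^ (1 + γ) : ℝ) : ℂ) *
      G (Real.log (Pk b y) - Real.log (Pk b y₀))) = fun b => (Pk b y₀ ^ 2) •
        ((Real.exp ((1 + γ) * (Real.log (Pk b y) - Real.log (Pk b y₀))) : ℂ) *
          G (Real.log (Pk b y) - Real.log (Pk b y₀))) := by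
    funext b
    rw [Complex.real_smul, ← mul_assoc]
    congr 1
    rw [← Complex.ofReal_mul]
    congr 1
    have p1 := pk_pos b y₀
    have p2 := pk_pos b y
    rw [Real.rpow_def_of_pos p1, Real.rpow_def_of_pos p2]
    have e3 : Pk b y₀ ^ 2 = Real.exp (Real.log (Pk b y₀) * 2) := by
      rw [mul_comm, ← Real.log_rpow p1, Real.exp_log (by positivity),
        show (2 : ℝ) = ((2 : ℕ) : ℝ) by norm_num, Real.rpow_natCast]
    rw [e3, ← Real.exp_add, ← Real.exp_add]
    congr 1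
    ring
  rw [e2, e1, intervalIntegral.integral_of_le (by linarith),
    ← integral_Icc_eq_integral_Ioc, ← integral_const_mul]
  refine integral_congr_ae (Filter.Eventually.of_forall fun τ => ?_)
  simp only
  rw [Complex.real_smul, ← mul_assoc, ← mul_assoc]
  congr 1
  rw [← Complex.ofReal_mul, ← Complex.ofReal_mul]
  congr 1
  rw [mul_assoc, ← Real.exp_add]
  congr 2
  ring

end Pool.Agent.Q277.HM
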