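import Mathlib
import Pool.Agent.Q277.HM.ACT

/-!
Project HM: the operator acts on the superpositions as a convolution (ACT).
-/

set_option autoImplicit false

namespace Pool.Agent.Q277.HM

open MeasureTheory Set
open scoped ENNReal
open Pool.Agent.Q76.HM

lemma exp_abs_int (a : ℝ) (ha : 0 < a) : Integrable fun τ : ℝ => Real.exp (-(a * |τ|)) := by
  rw [← integrableOn_univ, ← Iic_union_Ioi (a := (0 : ℝ))]
  apply IntegrableOn.union
  · refine (integrableOn_exp_mul_Iic ha 0).congr_fun (fun τ hτ => ?_) measurableSet_Iic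
    simp only
    rw [abs_of_nonpos hτ]
    congr 1
    ring
  · refine (integrableOn_exp_mul_Ioi (a := -a) (by linarith) 0).congr_fun (fun τ hτ => ?_)
      measurableSet_Ioi
    simp only
    rw [abs_of_pos hτ]
    congr 1
    ring

lemma kint (h : S_KAP) (γ : ℝ) (hγ : 0 < γ) :
    Integrable fun τ : ℝ => Real.exp (γ * τ) * kap γ τ := by
  obtain ⟨hc, hpos, heven, ⟨C, hC⟩, -, -, -⟩ := h γ hγ
  have h1 := (exp_abs_int (γ / 2) (by linarith)).const_mul (|C| * (1 + 2 / γ))
  refine h1.mono' ?_ (Filter.Eventually.of_forall fun τ => ?_)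
  · apply Continuous.aestronglyMeasurable
    exact (by fun_prop : Continuous fun τ : ℝ => Real.exp (γ * τ)).mul hc
  · rw [Real.norm_of_nonneg (mul_nonneg (Real.exp_pos _).le (hpos τ).le)]
    have e1 : Real.exp (γ * τ) ≤ Real.exp (γ * |τ|) := by
      apply Real.exp_le_exp.2
      exact mul_le_mul_of_nonneg_left (le_abs_self τ) hγ.le
    have e2 : 1 + |τ| ≤ (1 + 2 / γ) * Real.exp (γ / 2 * |τ|) := by
      have h2 := Real.add_one_le_exp (γ / 2 * |τ|)
      have h3 : 0 ≤ |τ| := abs_nonneg τ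
      have h4 : (1 + 2 / γ) * (γ / 2 * |τ| + 1) = 1 + |τ| + γ / 2 * |τ| + 2 / γ := by
        field_simp
        ring
      have h5 : (1 + 2 / γ) * (γ / 2 * |τ| + 1) ≤ (1 + 2 / γ) * Real.exp (γ / 2 * |τ|) :=
        mul_le_mul_of_nonneg_left h2 (by positivity)
      have h6 : 0 ≤ γ / 2 * |τ| + 2 / γ := by positivity
      linarith
    have e3 : kap γ τ ≤ |C| * (1 + |τ|) * Real.exp (-(2 * γ * |τ|)) := by
      refine (hC τ).trans ?_
      have := le_abs_self C
      gcongr
    calc Real.exp (γ * τ) * kap γ τ ≤ Real.exp (γ * |τ|) *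
          (|C| * (1 + |τ|) * Real.exp (-(2 * γ * |τ|))) :=
          mul_le_mul e1 e3 (hpos τ).le (Real.exp_pos _).le
      _ ≤ Real.exp (γ * |τ|) *
          (|C| * ((1 + 2 / γ) * Real.exp (γ / 2 * |τ|)) * Real.exp (-(2 * γ * |τ|))) := by
          gcongr
      _ = |C| * (1 + 2 / γ) * (Real.exp (γ * |τ|) * Real.exp (γ / 2 * |τ|) *
            Real.exp (-(2 * γ * |τ|))) := by ring
      _ = |C| * (1 + 2 / γ) * Real.exp (-(γ / 2 * |τ|)) := by
          rw [← Real.exp_add, ← Real.exp_add]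
          congr 2
          ring

lemma pk_log (b : ℂ) (y : ℂ × ℝ) (c : ℝ) : Pk b y ^ c = Real.exp (c * Real.log (Pk b y)) := by
  rw [Real.rpow_def_of_pos (pk_pos b y), mul_comm]

theorem act (h1 : S_KAP) (h3 : S_HRB) : S_ACT := by
  intro γ h0 hγ1 y₀ G hG hM x
  obtain ⟨M, hM⟩ := hM
  have hM0 : 0 ≤ M := (norm_nonneg _).trans (hM 0)
  obtain ⟨hkc, hkpos, -, -, hKm, hK0, -⟩ := h1 γ h0
  have hki := kint h1 γ h0
  set I : ℝ := ∫ τ : ℝ, Real.exp (γ * τ) * kap γ τ with hI
  have hchm : Measurable fun y : ℂ × ℝ => Kc γ (ch x y) := hKm.comp (meas_ch x)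
  -- the transfer
  have tr : ∀ (b : ℂ) (E : Type) [NormedAddCommGroup E] [NormedSpace ℝ E] (F : ℝ → E),
      StronglyMeasurable F →
      (Integrable (fun y => Kc γ (ch x y) • F (Real.log (Pk b y))) ↔
        Integrable (fun τ => (Real.exp (-τ) * kap γ τ) • F (Real.log (Pk b x) + τ))) ∧
      ∫ y, Kc γ (ch x y) • F (Real.log (Pk b y)) =
        ∫ τ, (Real.exp (-τ) * kap γ τ) • F (Real.log (Pk b x) + τ) := by
    intro b E _ _ F hF
    exact transfer (volume : Measure (ℂ × ℝ)) (volume : Measure ℝ) (fun y => Kc γ (ch x y)) hchm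
      (fun y => hK0 _) (fun y => Real.log (Pk b y))
      (Real.measurable_log.comp (pk_cont2 b).measurable)
      (fun τ => Real.exp (-τ) * kap γ τ)
      (((by fun_prop : Continuous fun τ : ℝ => Real.exp (-τ)).mul hkc).measurable)
      (fun τ => mul_nonneg (Real.exp_pos _).le (hkpos τ).le)
      (fun τ => Real.log (Pk b x) + τ) (measurable_const.add measurable_id)
      (fun g hg => h3 γ h0 b x g hg) F hF
  -- the inner functions
  set Fb : ℂ → ℝ → ℂ := fun b r => ((Pk b y₀ ^ (1 - γ) * Real.exp ((1 + γ) * r) : ℝ) : ℂ) *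
    G (r - Real.log (Pk b y₀)) with hFb
  have hFbm : ∀ b, Continuous (Fb b) := by
    intro b
    exact (Complex.continuous_ofReal.comp (by fun_prop)).mul (hG.comp (by fun_prop))
  have eF : ∀ b y, Fb b (Real.log (Pk b y)) = ((Pk b y₀ ^ (1 - γ) * Pk b y ^ (1 + γ) : ℝ) : ℂ) *
      G (Real.log (Pk b y) - Real.log (Pk b y₀)) := by
    intro b y
    simp only [hFb]
    rw [pk_log b y (1 + γ)]
  have eT : ∀ b τ, (Real.exp (-τ) * kap γ τ) • Fb b (Real.log (Pk b x) + τ) =
      ((Pk b y₀ ^ (1 - γ) * Pk b x ^ (1 + γ) : ℝ) : ℂ) *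
        (((Real.exp (γ * τ) * kap γ τ : ℝ) : ℂ) *
          G (Real.log (Pk b x) - Real.log (Pk b y₀) + τ)) := by
    intro b τ
    simp only [hFb]
    rw [Complex.real_smul, pk_log b x (1 + γ)]
    rw [show Real.log (Pk b x) + τ - Real.log (Pk b y₀) =
      Real.log (Pk b x) - Real.log (Pk b y₀) + τ by ring]
    rw [← mul_assoc, ← mul_assoc, ← Complex.ofReal_mul, ← Complex.ofReal_mul]
    congr 2
    rw [show (1 + γ) * (Real.log (Pk b x) + τ) = (1 + γ) * Real.log (Pk b x) + τ + γ * τ by ring,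
      Real.exp_add, Real.exp_add, Real.exp_neg]
    have := Real.exp_pos τ
    field_simp
  have hTint : ∀ b, Integrable fun τ : ℝ => ((Real.exp (γ * τ) * kap γ τ : ℝ) : ℂ) *
      G (Real.log (Pk b x) - Real.log (Pk b y₀) + τ) := by
    intro b
    refine (hki.const_mul M).mono' ?_ (Filter.Eventually.of_forall fun τ => ?_)
    · apply Continuous.aestronglyMeasurable
      exact (Complex.continuous_ofReal.comp
        ((by fun_prop : Continuous fun τ : ℝ => Real.exp (γ * τ)).mul hkc)).mul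
        (hG.comp (by fun_prop))
    · rw [norm_mul, Complex.norm_real,
        Real.norm_of_nonneg (mul_nonneg (Real.exp_pos _).le (hkpos τ).le), mul_comm]
      exact mul_le_mul_of_nonneg_right (hM _) (mul_nonneg (Real.exp_pos _).le (hkpos τ).le)
  have hin1 : ∀ b, Integrable fun y => Kc γ (ch x y) •
      (((Pk b y₀ ^ (1 - γ) * Pk b y ^ (1 + γ) : ℝ) : ℂ) *
        G (Real.log (Pk b y) - Real.log (Pk b y₀))) := by
    intro b
    have h4 := (tr b ℂ (Fb b) (hFbm b).stronglyMeasurable).1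
    simp only [eT, eF] at h4
    exact h4.2 ((hTint b).const_mul _)
  have hin2 : ∀ b, ∫ y, Kc γ (ch x y) •
      (((Pk b y₀ ^ (1 - γ) * Pk b y ^ (1 + γ) : ℝ) : ℂ) *
        G (Real.log (Pk b y) - Real.log (Pk b y₀))) =
      ((Pk b y₀ ^ (1 - γ) * Pk b x ^ (1 + γ) : ℝ) : ℂ) *
        ∫ τ : ℝ, ((Real.exp (γ * τ) * kap γ τ : ℝ) : ℂ) *
          G (Real.log (Pk b x) - Real.log (Pk b y₀) + τ) := by
    intro b
    have h4 := (tr b ℂ (Fb b) (hFbm b).stronglyMeasurable).2
    simp only [eT, eF] at h4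
    rw [h4, integral_const_mul]
  have hin3 : ∀ b, ∫ y, ‖Kc γ (ch x y) •
      (((Pk b y₀ ^ (1 - γ) * Pk b y ^ (1 + γ) : ℝ) : ℂ) *
        G (Real.log (Pk b y) - Real.log (Pk b y₀)))‖ ≤
      (Pk b y₀ ^ (1 - γ) * Pk b x ^ (1 + γ)) * (M * I) := by
    intro b
    have h4 := (tr b ℝ (fun r => ‖Fb b r‖) (hFbm b).norm.stronglyMeasurable).2
    have e5 : ∀ y, ‖Kc γ (ch x y) • (((Pk b y₀ ^ (1 - γ) * Pk b y ^ (1 + γ) : ℝ) : ℂ) *
        G (Real.log (Pk b y) - Real.log (Pk b y₀)))‖ =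
        Kc γ (ch x y) • ‖Fb b (Real.log (Pk b y))‖ := by
      intro y
      rw [norm_smul, Real.norm_of_nonneg (hK0 _), eF, smul_eq_mul]
    simp only [e5]
    rw [h4]
    have e6 : ∀ τ, (Real.exp (-τ) * kap γ τ) • ‖Fb b (Real.log (Pk b x) + τ)‖ ≤
        (Pk b y₀ ^ (1 - γ) * Pk b x ^ (1 + γ)) * (M * (Real.exp (γ * τ) * kap γ τ)) := by
      intro τ
      have hk1 : 0 ≤ Real.exp (-τ) * kap γ τ := mul_nonneg (Real.exp_pos _).le (hkpos τ).le
      have hk2 : 0 ≤ Real.exp (γ * τ) * kap γ τ := mul_nonneg (Real.exp_pos _).le (hkpos τ).le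
      have e7 : (Real.exp (-τ) * kap γ τ) • ‖Fb b (Real.log (Pk b x) + τ)‖ =
          ‖(Real.exp (-τ) * kap γ τ) • Fb b (Real.log (Pk b x) + τ)‖ := by
        rw [norm_smul, Real.norm_of_nonneg hk1, smul_eq_mul]
      rw [e7, eT, norm_mul, norm_mul, Complex.norm_real, Complex.norm_real,
        Real.norm_of_nonneg (w_pos γ y₀ x b).le, Real.norm_of_nonneg hk2]
      apply mul_le_mul_of_nonneg_left _ (w_pos γ y₀ x b).le
      rw [mul_comm]
      exact mul_le_mul_of_nonneg_right (hM _) hk2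
    calc ∫ τ, (Real.exp (-τ) * kap γ τ) • ‖Fb b (Real.log (Pk b x) + τ)‖ ≤
        ∫ τ, (Pk b y₀ ^ (1 - γ) * Pk b x ^ (1 + γ)) * (M * (Real.exp (γ * τ) * kap γ τ)) := by
          apply integral_mono_of_nonneg
          · refine Filter.Eventually.of_forall fun τ => ?_
            exact smul_nonneg (mul_nonneg (Real.exp_pos _).le (hkpos τ).le) (norm_nonneg _)
          · exact (hki.const_mul M).const_mul _
          · exact Filter.Eventually.of_forall e6
      _ = _ := by rw [integral_const_mul, integral_const_mul]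
  -- Fubini
  have hlogm : Measurable fun p : (ℂ × ℝ) × ℂ => Real.log (Pk p.2 p.1) :=
    Real.measurable_log.comp (pk_cont.comp (continuous_snd.prodMk continuous_fst)).measurable
  have hPm : Measurable fun p : (ℂ × ℝ) × ℂ => Pk p.2 p.1 :=
    (pk_cont.comp (continuous_snd.prodMk continuous_fst)).measurable
  have hP0m : Measurable fun p : (ℂ × ℝ) × ℂ => Pk p.2 y₀ :=
    ((pk_cont1 y₀).comp continuous_snd).measurable
  have hmeas : Measurable fun p : (ℂ × ℝ) × ℂ => Kc γ (ch x p.1) •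
      (((Pk p.2 y₀ ^ (1 - γ) * Pk p.2 p.1 ^ (1 + γ) : ℝ) : ℂ) *
        G (Real.log (Pk p.2 p.1) - Real.log (Pk p.2 y₀))) := by
    simp only [Complex.real_smul]
    apply Measurable.mul
    · exact Complex.measurable_ofReal.comp (hchm.comp measurable_fst)
    · apply Measurable.mul
      · exact Complex.measurable_ofReal.comp ((hP0m.pow_const _).mul (hPm.pow_const _))
      · exact hG.measurable.comp (hlogm.sub (Real.measurable_log.comp hP0m))
  have hprod : Integrable (fun p : (ℂ × ℝ) × ℂ => Kc γ (ch x p.1) •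
      (((Pk p.2 y₀ ^ (1 - γ) * Pk p.2 p.1 ^ (1 + γ) : ℝ) : ℂ) *
        G (Real.log (Pk p.2 p.1) - Real.log (Pk p.2 y₀))))
      ((volume : Measure (ℂ × ℝ)).prod (volume : Measure ℂ)) := by
    rw [integrable_prod_iff' hmeas.aestronglyMeasurable]
    refine ⟨Filter.Eventually.of_forall fun b => hin1 b, ?_⟩
    refine ((w_int γ h0 hγ1 y₀ x).mul_const (M * I)).mono' ?_
      (Filter.Eventually.of_forall fun b => ?_)
    · exact (hmeas.norm.stronglyMeasurable.integral_prod_left'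
        (μ := (volume : Measure (ℂ × ℝ)))).aestronglyMeasurable
    · rw [Real.norm_of_nonneg (integral_nonneg fun y => norm_nonneg _)]
      exact hin3 b
  have efam : ∀ y, (Kc γ (ch x y) : ℂ) * fam γ y₀ G y = ∫ b : ℂ, Kc γ (ch x y) •
      (((Pk b y₀ ^ (1 - γ) * Pk b y ^ (1 + γ) : ℝ) : ℂ) *
        G (Real.log (Pk b y) - Real.log (Pk b y₀))) := by
    intro y
    rw [integral_smul, Complex.real_smul]
    rfl
  simp only [efam]
  refine ⟨hprod.integral_prod_left, ?_⟩
  rw [integral_integral_swap hprod]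
  simp only [hin2]
  have hout : Integrable fun b : ℂ => ((Pk b y₀ ^ (1 - γ) * Pk b x ^ (1 + γ) : ℝ) : ℂ) *
        ∫ τ : ℝ, ((Real.exp (γ * τ) * kap γ τ : ℝ) : ℂ) *
          G (Real.log (Pk b x) - Real.log (Pk b y₀) + τ) := by
    have h5 := hprod.integral_prod_right
    simp only [hin2] at h5
    exact h5
  unfold fam
  rw [← integral_sub (fam_int γ h0 hγ1 y₀ x G hG M hM) hout]
  refine integral_congr_ae (Filter.Eventually.of_forall fun b => ?_)
  simp only
  ring

end Pool.Agent.Q277.HM
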