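import Mathlib
import Pool.Agent.Q76.HM.Stm

/-!
Project HM: Kitai's criterion (KIT).
-/

set_option autoImplicit false

namespace Pool.Agent.Q277.HM

open Filter Topology Set TopologicalSpace
open Pool.Agent.Q76.HM (S_KIT)

variable {E : Type} [NormedAddCommGroup E] [NormedSpace ℂ E]

lemma kit_fwd (T : E →L[ℂ] E) (D : Set E)
    (h : ∀ x ∈ D, Tendsto (fun n : ℕ => (T ^ n) x) atTop (𝓝 0)) :
    ∀ x ∈ Submodule.span ℂ D, Tendsto (fun n : ℕ => (T ^ n) x) atTop (𝓝 0) := by
  intro x hx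
  induction hx using Submodule.span_induction with
  | mem x hx => exact h x hx
  | zero =>
    simp only [map_zero]
    exact tendsto_const_nhds
  | add x y _ _ hx hy =>
    simp only [map_add]
    simpa using hx.add hy
  | smul c x _ hx =>
    simp only [map_smul]
    simpa using hx.const_smul c

lemma kit_bwd (T : E →L[ℂ] E) (D : Set E)
    (h : ∀ x ∈ D, ∃ y : ℕ → E, (∀ n, (T ^ n) (y n) = x) ∧ Tendsto y atTop (𝓝 0)) :
    ∀ x ∈ Submodule.span ℂ D,
      ∃ y : ℕ → E, (∀ n, (T ^ n) (y n) = x) ∧ Tendsto y atTop (𝓝 0) := by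
  intro x hx
  induction hx using Submodule.span_induction with
  | mem x hx => exact h x hx
  | zero => exact ⟨fun _ => 0, fun n => map_zero _, tendsto_const_nhds⟩
  | add x y _ _ hx hy =>
    obtain ⟨a, ha1, ha2⟩ := hx
    obtain ⟨b, hb1, hb2⟩ := hy
    refine ⟨fun n => a n + b n, fun n => ?_, ?_⟩
    · rw [map_add, ha1, hb1]
    · simpa using ha2.add hb2
  | smul c x _ hx =>
    obtain ⟨a, ha1, ha2⟩ := hx
    refine ⟨fun n => c • a n, fun n => ?_, ?_⟩
    · rw [map_smul, ha1]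
    · simpa using ha2.const_smul c

theorem kit : S_KIT := by
  intro E _ _ _ _ T D hD h1 h2
  have hf := kit_fwd T D h1
  have hb := kit_bwd T D h2
  have trans : ∀ U W : Set E, IsOpen U → IsOpen W → U.Nonempty → W.Nonempty →
      ∃ n : ℕ, ∃ u ∈ U, (T ^ n) u ∈ W := by
    intro U W hU hW hUn hWn
    obtain ⟨x, hxU, hxD⟩ := hD.inter_open_nonempty U hU hUn
    obtain ⟨y, hyW, hyD⟩ := hD.inter_open_nonempty W hW hWn
    obtain ⟨z, hz1, hz2⟩ := hb y hyD
    have t1 : Tendsto (fun n => x + z n) atTop (𝓝 x) := by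
      simpa using (tendsto_const_nhds (x := x)).add hz2
    have t2 : Tendsto (fun n : ℕ => (T ^ n) (x + z n)) atTop (𝓝 y) := by
      have h3 : (fun n : ℕ => (T ^ n) (x + z n)) = fun n => (T ^ n) x + y := by
        funext n
        rw [map_add, hz1]
      rw [h3]
      simpa using (hf x hxD).add (tendsto_const_nhds (x := y))
    obtain ⟨n, hn1, hn2⟩ := ((t1.eventually (hU.mem_nhds hxU)).and
      (t2.eventually (hW.mem_nhds hyW))).exists
    exact ⟨n, x + z n, hn1, hn2⟩
  have hdense : ∀ W ∈ countableBasis E, IsOpen (⋃ n : ℕ, (fun x => (T ^ n) x) ⁻¹' W) := by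
    intro W hW
    apply isOpen_iUnion
    intro n
    exact (isOpen_of_mem_countableBasis hW).preimage (T ^ n).continuous
  have hd2 : ∀ W ∈ countableBasis E, Dense (⋃ n : ℕ, (fun x => (T ^ n) x) ⁻¹' W) := by
    intro W hW
    rw [dense_iff_inter_open]
    intro U hU hUn
    obtain ⟨n, u, hu, hu2⟩ := trans U W hU (isOpen_of_mem_countableBasis hW) hUn
      (nonempty_of_mem_countableBasis hW)
    exact ⟨u, hu, mem_iUnion.2 ⟨n, hu2⟩⟩
  have hB := dense_biInter_of_isOpen (S := countableBasis E)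
    (f := fun W => ⋃ n : ℕ, (fun x => (T ^ n) x) ⁻¹' W) hdense (countable_countableBasis E) hd2
  obtain ⟨x, hx⟩ := hB.nonempty
  refine ⟨x, ?_⟩
  rw [(isBasis_countableBasis E).dense_iff]
  intro W hW _
  rw [mem_iInter₂] at hx
  obtain ⟨n, hn⟩ := mem_iUnion.1 (hx W hW)
  exact ⟨(T ^ n) x, hn, mem_range_self n⟩

end Pool.Agent.Q277.HM
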